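import Pool.Agent.Run7.h428.Gp
import Pool.Agent.Results.MP_ec4e4b_nt.OddWeightsMultiquadratic

/-!
# The order of vanishing formula in all the odd weights over infinite towers which are built from an
# arbitrary dense set of numbers, for all the good twists at once

`E_M` is the quadratic twist by `M` of `X_0(49)`, `ψ_M` its Hecke character over `K = ℚ(√-7)`, and `M_k` is
the polarized Chow motive over `ℚ` with the Galois representation and the `L`-function of `ψ_M^{2k-1}`, as
in `OddWeightsMultiquadratic` (helper359), where all the notions used here are explained. The number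
`M ≥ 1`, squarefree, `≡ 1 mod 8` and with all prime factors `≡ 1 mod 4`, is good if `E_M(ℚ)` is finite and
`Ш(E_M/ℚ)` has no element of order two (for instance `M = 1`; at least `a X / √(log X)` of the numbers
up to `X` are good).

The class consists of the squarefree numbers with all prime factors `≡ 1 mod 4`. Let `A` be ANY set
of numbers whose upper density in the class is positive. Then there are `d_0 < d_1 < ...` in `A`, of the
class, such that for EVERY good `M`, with `j = M - 1`, and for all `n ≥ 0`, the field
`F = ℚ(√(d_j d_{j+1}), ..., √(d_j d_{j+n}))` has degree `2 ^ n`, and for the motives over `F` and over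
`L = F(√-7)` that belong to `M`, and `p = 2`:
for ALL odd `k > 0` at once the order of vanishing formula holds, both sides being zero: the
`L`-functions are entire and not zero at the centre, `H⁰` and the Bloch–Kato groups `H¹_f` are zero.
(For the even `k` the inequality `dim H¹_f ≤ 2 ^ n ≤ ord` follows in the same way from
`EvenWeightsInequality`.)
So one sequence of radicands, taken from an arbitrary dense set, works for all the good twists, all the
weights and all the levels of the tower. The numbers `d_i` themselves need not be good.

Proof. `OddWeightsMultiquadratic` of helper359 reduces the statement to the goodness of all the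
`M ∏_{i ∈ T} d_i`, `T` a finite set of indices with an even number of elements. By the joint law of the starting files (`Pool/Agent/R413/SM`) the goodness of `D m_1, D m_2, ...`, for fixed
different `m_i` modulo squares, are asymptotically independent events; by a second moment argument
all but finitely many `m` are such that the goodness of `D m m_1, ..., D m m_r` is nearly independent of any
given set of numbers `D`, so that the sequence can be constructed inside `A`, and at the step `n` we take
care of the multipliers `M ≤ n + 1` (`Run7/h428/Mix`, `Uni`, `Tow`, `Gp`).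
-/

set_option autoImplicit false

open Filter Topology

namespace Pool.Agent.Results.MP_ec4e4b_nt.AllWeightsDenseTowers

open Pool.Agent.Results.MP_787500_nt.AllWeightsMultiquadraticX49 (RankZeroShaTwo Ind)
open Pool.Agent.Results.MP_ec4e4b_nt.OddWeightsMultiquadratic (Wide AllFormulas)

/-- `D` is squarefree and all its prime factors are `≡ 1 mod 4`. -/
def InClass (D : ℕ) : Prop := Squarefree D ∧ ∀ p ∈ D.primeFactors, p % 4 = 1

open Classical in
/-- The number of the `D ≤ X` of the class which are in `A`. -/
noncomputable def num (A : Set ℕ) (X : ℕ) : ℕ :=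
  ((Finset.Icc 1 X).filter fun D => InClass D ∧ D ∈ A).card

/-- The upper density of `A` in the class is at least `δ`: for every `ε > 0` there are arbitrarily large
`X` such that at least the proportion `δ - ε` of the numbers `≤ X` of the class is in `A`. -/
def UpperDensityGe (A : Set ℕ) (δ : ℝ) : Prop :=
  ∀ ε : ℝ, 0 < ε → ∃ᶠ X : ℕ in atTop, (δ - ε) * (num Set.univ X : ℝ) ≤ (num A X : ℝ)

/-- The products `d j * d (j + 1)`, `d j * d (j + 2)`, ..., `d j * d (j + n)`. -/
def products (d : ℕ → ℕ) (j n : ℕ) : Fin n → ℕ := fun i => d j * d (j + 1 + i)

section proof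

open Run7.h428.Mix Run7.h428.Uni Run7.h428.Inst Run7.h428.Gp

open scoped Classical

theorem num_cn (A : Set ℕ) (X : ℕ) : (num A X : ℝ) = cn (SC X) A := by
  unfold num SC cn
  rw [Finset.filter_filter]
  rfl

theorem ud_iff (A : Set ℕ) (δ : ℝ) : UpperDensityGe A δ ↔ UD SC A δ := by
  have h : ∀ X, (num Set.univ X : ℝ) = ((SC X).card : ℝ) := fun X => by
    rw [num_cn]
    unfold cn
    simp
  have h' : ∀ X, (num A X : ℝ) = cn (SC X) A := num_cn A
  unfold UpperDensityGe UD
  simp only [h, h']

end proof

theorem result (A : Set ℕ) (δ : ℝ) (hδ : 0 < δ) (hA : UpperDensityGe A δ) :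
    ∃ d : ℕ → ℕ, StrictMono d ∧ (∀ i, d i ∈ A ∧ InClass (d i)) ∧
      ∀ M : ℕ, Wide M → RankZeroShaTwo M → ∀ n : ℕ,
        Ind (products d (M - 1) n) ∧ AllFormulas M (products d (M - 1) n) := by
  obtain ⟨d, h1, h2, h3⟩ := Run7.h428.Gp.dense ⟨δ, hδ, (ud_iff A δ).1 hA⟩
  refine ⟨d, h1, fun i => ⟨(h2 i).1, (h2 i).2⟩, fun M hM hR n => ?_⟩
  obtain ⟨h4, h5⟩ := h3 M hM hR n
  exact ⟨h4, OddWeightsMultiquadratic.all_formulas h5⟩

end Pool.Agent.Results.MP_ec4e4b_nt.AllWeightsDenseTowers
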