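import Pool.Agent.Run7.h428.Inst
import Pool.Agent.Run7.h428.Uni2
import Pool.Agent.Run7.h428.Sub

/-!
# The rank conjecture for `X_0(49)` over all the number fields in infinite multiquadratic fields, built from
# an arbitrary dense set of numbers

`E : y² + x y = x³ - x² - 2 x - 1` is the curve `X_0(49)`, and `E_D` is its quadratic twist by `D`. The
class consists of the squarefree numbers with all prime factors `≡ 1 mod 4`. Let `A` be ANY set of
numbers whose upper density in the class is positive. Then there are `d_0 < d_1 < ...` in `A`, of the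
class, such that
* `ℚ(√d_0, …, √d_{n-1})` has degree `2 ^ n` for all `n`;
* for every number field `F` contained in the infinite field `K_∞ = ℚ(√(d_i d_j) : i, j ≥ 0)` the
  rank conjecture holds for `E` over `F`: `L(E/F, s)` is entire, its order of vanishing at `s = 1` is the
  rank of `E(F)`, and both are zero, `L(E/F, 1) ≠ 0`, `E(F)` is finite. So `E(K_∞)` is a torsion
  group (its rank is zero, although `K_∞` is an infinite extension);
* if moreover `E_D(ℚ)` is finite and `Ш(E_D/ℚ)[2] = 0` for all the `D ∈ A` of the class, then the same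
  holds for the larger field `ℚ(√d_i : i ≥ 0)`.

So the radicands of such infinite towers, with the rank formula at every finite level, can be found in
every set of positive upper density: for instance among the `D` for which `E_D` does not satisfy the
condition of the last point, or among the `D` with an even number of prime factors, or in a union of
sparse long intervals.

Proof. By the joint law of the starting files (`Pool/Agent/R413/SM`) the conditions
`Ш(E_{D m})[2] = 0`, `rank = 0`, for different fixed `m`, are asymptotically independent, with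
probability `c = 0.4194...`. So, given infinitely many `m`, they are nearly independent of any set `A`
for all but finitely many of them (second moment), and the number `d_n ∈ A` can be chosen so that the pattern of
the products of two or more of the `d_i`, `i ≤ n`, is prescribed, and so that for each pattern the set of
the possible next elements of `A` still has positive upper density. Then, for a finite field `F ⊂ K_∞`,
`F = ℚ(√m : m ∈ S)` for a finite set `S` of numbers of the class, and the squarefree `m` with `√m ∈ F`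
are the squarefree parts of products of an even number of the `d_i` (Kummer theory,
`Run7/h428/Kum`, `Sub`). The passage from `ℚ` to `F` is `MP_cd906c_nt/TwistsMultiquadraticX49` of
helper401.
-/

set_option autoImplicit false

open NumberField WeierstrassCurve Filter Topology

namespace Pool.Agent.Results.MP_cd906c_nt.TowersFromDenseSets

open Pool.Agent.Results.MP_92892c_nt.FullClassTwoPartX49 (RankZeroShaTwo)

/-- `D` is squarefree and all its prime factors are `≡ 1 mod 4`. -/
def InClass (D : ℕ) : Prop := Squarefree D ∧ ∀ p ∈ D.primeFactors, p % 4 = 1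

open Classical in
/-- The number of the `D ≤ X` of the class which are in `A`. -/
noncomputable def num (A : Set ℕ) (X : ℕ) : ℕ :=
  ((Finset.Icc 1 X).filter fun D => InClass D ∧ D ∈ A).card

/-- The upper density of `A` in the class is at least `δ`: for every `ε > 0` there are arbitrarily large
`X` such that at least the proportion `δ - ε` of the numbers `≤ X` of the class is in `A`. -/
def UpperDensityGe (A : Set ℕ) (δ : ℝ) : Prop :=
  ∀ ε : ℝ, 0 < ε → ∃ᶠ X : ℕ in atTop, (δ - ε) * (num Set.univ X : ℝ) ≤ (num A X : ℝ)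

/-- The field generated by the square roots of the `d i` with `i < n`. -/
noncomputable def level (d : ℕ → ℕ) (n : ℕ) : IntermediateField ℚ ℂ :=
  IntermediateField.adjoin ℚ {z : ℂ | ∃ i < n, z ^ 2 = (d i : ℂ)}

/-- The field generated by the square roots of all the `d i`. -/
noncomputable def rootField (d : ℕ → ℕ) : IntermediateField ℚ ℂ :=
  IntermediateField.adjoin ℚ {z : ℂ | ∃ i : ℕ, z ^ 2 = (d i : ℂ)}

/-- The field generated by the square roots of all the products `d i * d j`. -/
noncomputable def pairField (d : ℕ → ℕ) : IntermediateField ℚ ℂ :=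
  IntermediateField.adjoin ℚ {z : ℂ | ∃ i j : ℕ, z ^ 2 = (d i : ℂ) * (d j : ℂ)}

/-- The curve `X_0(49) : y² + x y = x³ - x² - 2 x - 1` over the field `F`. -/
noncomputable abbrev X49 (F : Type) [Field F] [Algebra ℚ F] : WeierstrassCurve F :=
  (⟨1, -1, 0, -2, -1⟩ : WeierstrassCurve ℚ).baseChange F

open Classical in
/-- For the number field `F`, `L(X_0(49)/F, s)` has an entire continuation `Λ`, whose order of vanishing at
`s = 1` is the rank of the group of the `F`-rational points; moreover `Λ 1 ≠ 0` and this group is finite,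
so that both are zero. -/
def RankFormula (F : Type) [Field F] [NumberField F] : Prop :=
  ∃ Λ : ℂ → ℂ, Differentiable ℂ Λ ∧ (∀ s : ℂ, 2 < s.re → Λ s = (X49 F).LSeries s) ∧
    analyticOrderAt Λ 1 = (Module.finrank ℤ (X49 F).toAffine.Point : ℕ∞) ∧
    Λ 1 ≠ 0 ∧ Finite (X49 F).toAffine.Point

/-- Every number field contained in `M` satisfies `RankFormula`. -/
def RankFormulaBelow (M : IntermediateField ℚ ℂ) : Prop :=
  ∀ (F : IntermediateField ℚ ℂ) [NumberField F], F ≤ M → RankFormula F

open Classical in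
/-- The group of the points of `X_0(49)` over `M` is a torsion group. -/
def TorsionOver (M : IntermediateField ℚ ℂ) : Prop :=
  ∀ P : (X49 M).toAffine.Point, ∃ n : ℕ, 0 < n ∧ n • P = 0

section proof

open Run7.h428.Mix Run7.h428.Uni Run7.h428.Inst Run7.h428.Kum Run7.h401.Fl
open Pool.Agent.R413.SQ
open Pool.Agent.Y698.SG (n4)
open Pool.Agent.Results.MP_4a9ea6_nt.TwoPartTwistsX49 (twist TwoPart Adm)
open Pool.Agent.Results.MP_92892c_nt.FullClassTwoPartX49 (two_sel two_gd modTwo)
open Pool.Agent.Results.MP_cd906c_nt.TwistsMultiquadraticX49 (field gen1 gen2 finDim numField)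

open scoped Classical symmDiff

theorem num_cn (A : Set ℕ) (X : ℕ) : (num A X : ℝ) = cn (SC X) A := by
  unfold num SC cn
  rw [Finset.filter_filter]
  rfl

theorem ud_iff (A : Set ℕ) (δ : ℝ) : UpperDensityGe A δ ↔ UD SC A δ := by
  have h : ∀ X, (num Set.univ X : ℝ) = ((SC X).card : ℝ) := fun X => by
    rw [num_cn]
    unfold cn
    simp
  have h' : ∀ X, (num A X : ℝ) = cn (SC X) A := num_cn A
  unfold UpperDensityGe UD
  simp only [h, h']

theorem X49_eq (F : Type) [Field F] [CharZero F] [Algebra ℚ F] :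
    X49 F = (twist 1).map (Int.castRingHom F) := by
  unfold X49 twist WeierstrassCurve.baseChange
  ext <;> simp [WeierstrassCurve.map]

theorem fr_zero (F : Type) [Field F] (W : WeierstrassCurve F) (h : Finite W.toAffine.Point) :
    Module.finrank ℤ W.toAffine.Point = 0 := by
  apply Module.finrank_eq_zero_of_rank_eq_zero
  rw [rank_eq_zero_iff]
  intro x
  refine ⟨(Nat.card W.toAffine.Point : ℤ), ?_, ?_⟩
  · have : 0 < Nat.card W.toAffine.Point := Nat.card_pos
    exact_mod_cast this.ne'
  · rw [natCast_zsmul]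
    exact card_nsmul_eq_zero'

theorem rf_of (F : Type) [Field F] [NumberField F] (Λ : ℂ → ℂ) (h1 : Differentiable ℂ Λ)
    (h2 : ∀ s : ℂ, 2 < s.re → Λ s = (X49 F).LSeries s) (h3 : Λ 1 ≠ 0)
    (h4 : Finite (X49 F).toAffine.Point) : RankFormula F := by
  refine ⟨Λ, h1, h2, ?_, h3, h4⟩
  have h6 : analyticOrderAt Λ 1 = 0 := analyticOrderAt_eq_zero.2 (Or.inr h3)
  rw [h6, fr_zero F (X49 F) h4]
  rfl

/-- the rank formula over a field generated by square roots -/
theorem formula_of {S : Finset ℕ} (hS : ∀ d ∈ S, Squarefree d ∧ ∀ p ∈ d.primeFactors, p % 4 = 1)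
    (h : ∀ m : ℕ, Squarefree m → (∃ z ∈ field S, z ^ 2 = (m : ℂ)) → InClass m ∧ TwoPart m) :
    RankFormula (field S) := by
  have hF : Pool.Agent.Results.MP_cd906c_nt.TwistsMultiquadraticX49.Family S 1 :=
    ⟨⟨squarefree_one, fun p hp => absurd hp (by simp)⟩, fun d _ => Nat.coprime_one_left d⟩
  have hg : Pool.Agent.Results.MP_cd906c_nt.TwistsMultiquadraticX49.Good S 1 := by
    intro m hm hz
    obtain ⟨h1, h2⟩ := h m hm hz
    rw [one_mul]
    exact (two_sel h1).1 h2
  obtain ⟨Λ, h1, h2, h3, h4, h5⟩ :=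
    Pool.Agent.Results.MP_cd906c_nt.TwistsMultiquadraticX49.rank_formula hS hF hg
  have e := X49_eq (field S)
  refine rf_of (field S) Λ h1 ?_ h4 ?_
  · rw [e]
    exact h2
  · rw [e]
    exact h5

variable {d : ℕ → ℕ}

/-- the squarefree number with the square class of a product -/
theorem sq_cls (hc : ∀ i, InClass (d i)) {m : ℕ} (hm : Squarefree m) {T : Finset ℕ}
    (h : IsSquare (m * ∏ i ∈ T, d i)) : m = ∏ p ∈ W (fun i => (d i).primeFactors) T, p := by
  obtain ⟨k, hk, h1⟩ := prod_mask d T fun i _ => hc i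
  have ham : am (W (fun i => (d i).primeFactors) T) := isLaw.adm_W T fun i _ => am_pf (hc i)
  obtain ⟨h2, h3⟩ := adm_of_mask ham
  obtain ⟨r, hr⟩ := h
  have hm0 : 0 < m := Nat.pos_of_ne_zero hm.ne_zero
  have hP0 : 0 < ∏ p ∈ W (fun i => (d i).primeFactors) T, p := Nat.pos_of_ne_zero h2.1.ne_zero
  have h4 : m * ((∏ p ∈ W (fun i => (d i).primeFactors) T, p) * k) ^ 2 =
      (∏ p ∈ W (fun i => (d i).primeFactors) T, p) * r ^ 2 := by
    rw [h1] at hr
    calc _ = (∏ p ∈ W (fun i => (d i).primeFactors) T, p) *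
          (m * ((∏ p ∈ W (fun i => (d i).primeFactors) T, p) * k ^ 2)) := by ring
      _ = _ := by rw [hr]; ring
  have hr0 : 0 < r := by
    rcases Nat.eq_zero_or_pos r with h0 | h0
    · rw [h1, h0] at hr
      have : 0 < m * ((∏ p ∈ W (fun i => (d i).primeFactors) T, p) * k ^ 2) := by positivity
      omega
    · exact h0
  exact sq_unique hm h2.1 (by positivity) hr0 h4

/-- a product whose square class is that of `m` -/
theorem of_prod {Φ : Set (Finset ℕ)} (hc : ∀ i, InClass (d i))
    (hΦ : ∀ T ∈ Φ, Gd n4 (W (fun i => (d i).primeFactors) T)) {m : ℕ} (hm : Squarefree m)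
    {T : Finset ℕ} (hT : T ∈ Φ) (h : IsSquare (m * ∏ i ∈ T, d i)) : InClass m ∧ TwoPart m := by
  have ham : am (W (fun i => (d i).primeFactors) T) := isLaw.adm_W T fun i _ => am_pf (hc i)
  obtain ⟨h2, h3⟩ := adm_of_mask ham
  rw [sq_cls hc hm h]
  refine ⟨h2, (two_gd h2).2 ?_⟩
  rw [h3]
  exact hΦ T hT

theorem rootField_eq (d : ℕ → ℕ) : rootField d = fld (Set.range d) := by
  unfold rootField fld
  congr 1
  ext z
  constructor
  · rintro ⟨i, hi⟩
    exact ⟨d i, ⟨i, rfl⟩, hi⟩
  · rintro ⟨_, ⟨i, rfl⟩, hi⟩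
    exact ⟨i, hi⟩

theorem pairField_eq (d : ℕ → ℕ) :
    pairField d = fld (Set.range fun q : ℕ × ℕ => d q.1 * d q.2) := by
  unfold pairField fld
  congr 1
  ext z
  constructor
  · rintro ⟨i, j, hi⟩
    exact ⟨d i * d j, ⟨(i, j), rfl⟩, by push_cast; exact hi⟩
  · rintro ⟨_, ⟨⟨i, j⟩, rfl⟩, hi⟩
    exact ⟨i, j, by rw [hi]; push_cast; rfl⟩

theorem level_eq (d : ℕ → ℕ) (n : ℕ) :
    level d n = fld (((Finset.range n).image d : Finset ℕ) : Set ℕ) := by
  unfold level fld
  congr 1
  ext z
  constructor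
  · rintro ⟨i, hn, hi⟩
    exact ⟨d i, by simpa using ⟨i, hn, rfl⟩, hi⟩
  · rintro ⟨e, he, hi⟩
    obtain ⟨i, hn, rfl⟩ := Finset.mem_image.1 (Finset.mem_coe.1 he)
    exact ⟨i, Finset.mem_range.1 hn, hi⟩

/-- a finite product of products of pairs is, up to squares, the product over an even set -/
theorem even_prod (T : Finset (ℕ × ℕ)) (hd : ∀ i, d i ≠ 0) : ∃ T' : Finset ℕ, Even T'.card ∧
    ∃ k : ℕ, 0 < k ∧ ∏ q ∈ T, d q.1 * d q.2 = (∏ i ∈ T', d i) * k ^ 2 := by
  have key : ∀ (T : Finset ℕ) (i : ℕ), ∃ T' : Finset ℕ, (Even T'.card ↔ ¬ Even T.card) ∧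
      ∃ k : ℕ, 0 < k ∧ d i * ∏ i ∈ T, d i = (∏ i ∈ T', d i) * k ^ 2 := by
    intro T i
    by_cases hi : i ∈ T
    · refine ⟨T.erase i, ?_, d i, Nat.pos_of_ne_zero (hd i), ?_⟩
      · rw [Finset.card_erase_of_mem hi]
        have : 0 < T.card := Finset.card_pos.2 ⟨i, hi⟩
        obtain ⟨n, hn⟩ : ∃ n, T.card = n + 1 := ⟨T.card - 1, by omega⟩
        rw [hn, Nat.add_sub_cancel, Nat.even_add_one, not_not]
      · rw [← Finset.mul_prod_erase T d hi]
        ring
    · refine ⟨insert i T, ?_, 1, one_pos, ?_⟩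
      · rw [Finset.card_insert_of_notMem hi, Nat.even_add_one]
      · rw [Finset.prod_insert hi]
        ring
  induction T using Finset.induction_on with
  | empty => exact ⟨∅, by simp, 1, one_pos, by simp⟩
  | insert q T hq ih =>
    obtain ⟨T', hT', k, hk, h1⟩ := ih
    obtain ⟨T1, hT1, k1, hk1, h2⟩ := key T' q.2
    obtain ⟨T2, hT2, k2, hk2, h3⟩ := key T1 q.1
    refine ⟨T2, ?_, k * k1 * k2, by positivity, ?_⟩
    · rw [hT2, hT1, not_not]
      exact hT'
    · rw [Finset.prod_insert hq, h1]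
      calc _ = d q.1 * (d q.2 * ∏ i ∈ T', d i) * k ^ 2 := by ring
        _ = (d q.1 * ∏ i ∈ T1, d i) * k1 ^ 2 * k ^ 2 := by rw [h2]; ring
        _ = _ := by rw [h3]; ring

/-- the square roots in the field of the pairs -/
theorem sqrt_pair (hd : ∀ i, d i ≠ 0) {z : ℂ} (hz : z ∈ pairField d) {m : ℕ}
    (hm : z ^ 2 = (m : ℂ)) : ∃ T : Finset ℕ, Even T.card ∧ IsSquare (m * ∏ i ∈ T, d i) := by
  rw [pairField_eq] at hz
  obtain ⟨T, hT, r, hr⟩ := sqrt_mem_inf _ hz hm
  have h1 : ∀ e ∈ T, ∃ q : ℕ × ℕ, d q.1 * d q.2 = e := fun e he => hT he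
  choose! f hf using h1
  have hinj : Set.InjOn f (T : Set ℕ) := by
    intro a ha b hb hab
    rw [← hf a ha, ← hf b hb, hab]
  obtain ⟨T', hT', k, hk, h2⟩ := even_prod (T.image f) hd
  rw [Finset.prod_image hinj, Finset.prod_congr rfl hf] at h2
  refine ⟨T', hT', ?_⟩
  have h3 : (m * ∏ i ∈ T', d i) * k ^ 2 = r * r := by rw [← hr, h2]; ring
  have h4 : k ∣ r := (Nat.pow_dvd_pow_iff two_ne_zero).1 ⟨m * ∏ i ∈ T', d i, by
    rw [pow_two r, ← h3]
    ring⟩
  obtain ⟨t, rfl⟩ := h4
  refine ⟨t, ?_⟩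
  have h5 : 0 < k ^ 2 := by positivity
  apply Nat.eq_of_mul_eq_mul_right h5
  rw [h3]
  ring

/-- the square roots in the field of all the roots -/
theorem sqrt_root {z : ℂ} (hz : z ∈ rootField d) {m : ℕ}
    (hm : z ^ 2 = (m : ℂ)) : ∃ T : Finset ℕ, IsSquare (m * ∏ i ∈ T, d i) := by
  rw [rootField_eq] at hz
  obtain ⟨T, hT, hr⟩ := sqrt_mem_inf _ hz hm
  have h1 : ∀ e ∈ T, ∃ i : ℕ, d i = e := fun e he => hT he
  choose! f hf using h1
  have hinj' : Set.InjOn f (T : Set ℕ) := by
    intro a ha b hb hab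
    rw [← hf a ha, ← hf b hb, hab]
  refine ⟨T.image f, ?_⟩
  rw [Finset.prod_image hinj', Finset.prod_congr rfl hf]
  exact hr

/-- a finite subfield of a field generated by square roots -/
theorem sub_inf (S : Set ℕ) (F : IntermediateField ℚ ℂ) [NumberField F] (hF : F ≤ fld S) :
    ∃ S₀ : Finset ℕ, (S₀ : Set ℕ) ⊆ S ∧ F ≤ fld (S₀ : Set ℕ) := by
  have hfg : F.FG := IntermediateField.essFiniteType_iff.1 inferInstance
  obtain ⟨B, hB⟩ := hfg
  have h1 : ∀ x ∈ B, ∃ S₁ : Finset ℕ, (S₁ : Set ℕ) ⊆ S ∧ x ∈ fld (S₁ : Set ℕ) := by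
    intro x hx
    have hxF : x ∈ fld S := hF (by
      rw [← hB]
      exact IntermediateField.subset_adjoin ℚ _ hx)
    obtain ⟨G, hG1, hG2⟩ := IntermediateField.exists_finset_of_mem_adjoin hxF
    have h2 : ∀ y ∈ G, ∃ e ∈ S, y ^ 2 = (e : ℂ) := fun y hy => hG1 hy
    choose! f hf1 hf2 using h2
    refine ⟨G.image f, ?_, ?_⟩
    · intro e he
      obtain ⟨y, hy, rfl⟩ := Finset.mem_image.1 (Finset.mem_coe.1 he)
      exact hf1 y hy
    · refine (IntermediateField.adjoin_le_iff.2 ?_) hG2
      intro y hy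
      exact sqrt_in (by exact_mod_cast Finset.mem_image_of_mem f hy) (hf2 y hy)
  choose! g hg1 hg2 using h1
  refine ⟨B.biUnion g, ?_, ?_⟩
  · intro e he
    obtain ⟨x, hx, he⟩ := Finset.mem_biUnion.1 (Finset.mem_coe.1 he)
    exact hg1 x hx he
  · rw [← hB, IntermediateField.adjoin_le_iff]
    intro x hx
    exact fld_mono (by exact_mod_cast Finset.subset_biUnion_of_mem g hx) (hg2 x hx)

/-- the number fields in `M` -/
theorem below {M : IntermediateField ℚ ℂ} {S : Set ℕ} (hS : ∀ m ∈ S, InClass m) (hM : M ≤ fld S)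
    (h : ∀ m : ℕ, Squarefree m → (∃ z ∈ M, z ^ 2 = (m : ℂ)) → InClass m ∧ TwoPart m) :
    RankFormulaBelow M := by
  intro F hN hF
  obtain ⟨S₀, h1, h2⟩ := sub_inf S F (hF.trans hM)
  obtain ⟨S₁, h3, h4⟩ := sub_fld (fun m hm => hS m (h1 hm)) F h2
  subst h4
  exact formula_of h3 fun m hm hz => h m hm (by
    obtain ⟨z, hz1, hz2⟩ := hz
    exact ⟨z, hF hz1, hz2⟩)

/-- the set of the squarefree numbers of the class with square roots in `M` -/
def rad (M : IntermediateField ℚ ℂ) : Set ℕ := {m | InClass m ∧ ∃ z ∈ M, z ^ 2 = (m : ℂ)}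

theorem le_rad {M : IntermediateField ℚ ℂ} {z : ℂ} (hz : z ∈ M) {T : Finset ℕ} (d : ℕ → ℕ)
    (hc : ∀ i, InClass (d i)) {a b : ℕ} (ha : 0 < a) (hb : 0 < b)
    (h : z ^ 2 * (a : ℂ) ^ 2 = ((∏ i ∈ T, d i : ℕ) : ℂ) * (b : ℂ) ^ 2) : z ∈ fld (rad M) := by
  obtain ⟨k, hk, h1⟩ := prod_mask d T fun i _ => hc i
  have ham : am (W (fun i => (d i).primeFactors) T) := isLaw.adm_W T fun i _ => am_pf (hc i)
  obtain ⟨h2, -⟩ := adm_of_mask ham
  set P := ∏ p ∈ W (fun i => (d i).primeFactors) T, p with hP
  have hb' : (b : ℂ) ≠ 0 := by exact_mod_cast hb.ne'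
  have hk' : (k : ℂ) ≠ 0 := by exact_mod_cast hk.ne'
  have ha' : (a : ℂ) ≠ 0 := by exact_mod_cast ha.ne'
  have h3 : (z * a / (k * b)) ^ 2 = (P : ℂ) := by
    rw [h1] at h
    push_cast at h
    field_simp
    linear_combination h
  have h4 : z * a / (k * b) ∈ M := M.div_mem (M.mul_mem hz (M.natCast_mem a))
    (M.mul_mem (M.natCast_mem k) (M.natCast_mem b))
  have h5 : z * a / (k * b) ∈ fld (rad M) := sqrt_in (S := rad M) (d := P) ⟨h2, _, h4, h3⟩ h3
  have h6 : z = z * a / (k * b) * (k * b) / a := by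
    field_simp
  rw [h6]
  exact (fld _).div_mem ((fld _).mul_mem h5 ((fld _).mul_mem ((fld _).natCast_mem k)
    ((fld _).natCast_mem b))) ((fld _).natCast_mem a)

theorem below_pair (hc : ∀ i, InClass (d i))
    (hg : ∀ T : Finset ℕ, Even T.card → Gd n4 (W (fun i => (d i).primeFactors) T)) :
    RankFormulaBelow (pairField d) := by
  refine below (S := rad (pairField d)) (fun m hm => hm.1) ?_ fun m hm hz => ?_
  · have h0 : IntermediateField.adjoin ℚ {z : ℂ | ∃ i j : ℕ, z ^ 2 = (d i : ℂ) * (d j : ℂ)} ≤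
        fld (rad (pairField d)) := by
      rw [IntermediateField.adjoin_le_iff]
      rintro z ⟨i, j, hz⟩
      have hzM : z ∈ pairField d := IntermediateField.subset_adjoin ℚ _ ⟨i, j, hz⟩
      by_cases hij : i = j
      · refine le_rad hzM (T := ∅) d hc (a := 1) (b := d i) one_pos
          (Nat.pos_of_ne_zero (hc i).1.ne_zero) ?_
        rw [hz, hij]
        simp
        ring
      · refine le_rad hzM (T := {i, j}) d hc (a := 1) (b := 1) one_pos one_pos ?_
        rw [hz, Finset.prod_pair hij]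
        push_cast
        ring
    exact h0
  · obtain ⟨z, hz1, hz2⟩ := hz
    obtain ⟨T, hT1, hT2⟩ := sqrt_pair (fun i => (hc i).1.ne_zero) hz1 hz2
    exact of_prod (Φ := {T | Even T.card}) hc (fun T hT => hg T hT) hm hT1 hT2

theorem below_root (hc : ∀ i, InClass (d i))
    (hg : ∀ T : Finset ℕ, Gd n4 (W (fun i => (d i).primeFactors) T)) :
    RankFormulaBelow (rootField d) := by
  refine below (S := rad (rootField d)) (fun m hm => hm.1) ?_ fun m hm hz => ?_
  · have h0 : IntermediateField.adjoin ℚ {z : ℂ | ∃ i : ℕ, z ^ 2 = (d i : ℂ)} ≤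
        fld (rad (rootField d)) := by
      rw [IntermediateField.adjoin_le_iff]
      rintro z ⟨i, hz⟩
      have hzM : z ∈ rootField d := IntermediateField.subset_adjoin ℚ _ ⟨i, hz⟩
      exact sqrt_in (S := rad (rootField d)) (d := d i) ⟨hc i, z, hzM, hz⟩ hz
    exact h0
  · obtain ⟨z, hz1, hz2⟩ := hz
    obtain ⟨T, hT2⟩ := sqrt_root hz1 hz2
    exact of_prod (Φ := Set.univ) hc (fun T _ => hg T) hm (Set.mem_univ T) hT2

/-- the degrees -/
theorem degree (hc : ∀ i, InClass (d i)) (hd : Function.Injective d)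
    (hW : ∀ T T' : Finset ℕ, W (fun i => (d i).primeFactors) T =
      W (fun i => (d i).primeFactors) T' → T = T') (n : ℕ) :
    Module.finrank ℚ (level d n) = 2 ^ n := by
  set S : Finset ℕ := (Finset.range n).image d with hS
  have hSc : ∀ m ∈ S, Squarefree m ∧ ∀ p ∈ m.primeFactors, p % 4 = 1 := by
    intro m hm
    obtain ⟨i, -, rfl⟩ := Finset.mem_image.1 hm
    exact hc i
  obtain ⟨r, h⟩ := exists_MQ (field S) S hSc (gen1 S) (gen2 S)
  have h0 : Module.finrank ℚ (level d n) = Module.finrank ℚ (field S) := by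
    rw [level_eq]
    rfl
  rw [h0, h.finrank_eq]
  have hHF : HF (field S) S = (Finset.range n).powerset.image (W fun i => (d i).primeFactors) := by
    ext T'
    rw [mem_HF, Finset.mem_image]
    constructor
    · rintro ⟨hT', z, hz⟩
      have hpr : ∀ l ∈ T', l.Prime := by
        intro l hl
        obtain ⟨m, -, hl'⟩ := Finset.mem_biUnion.1 (hT' hl)
        exact Nat.prime_of_mem_primeFactors hl'
      have hzC : (z : ℂ) ^ 2 = ((∏ l ∈ T', l : ℕ) : ℂ) := by
        have := congrArg (fun x : field S => (x : ℂ)) hz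
        simpa using this
      obtain ⟨T1, hT1, h1⟩ := sqrt_mem_inf (S : Set ℕ) z.2 hzC
      set T : Finset ℕ := (Finset.range n).filter fun i => d i ∈ T1 with hT
      have e1 : T.image d = T1 := by
        ext e
        constructor
        · intro he
          obtain ⟨i, hi, rfl⟩ := Finset.mem_image.1 he
          exact (Finset.mem_filter.1 hi).2
        · intro he
          obtain ⟨i, hi, rfl⟩ := Finset.mem_image.1 (Finset.mem_coe.1 (hT1 he))
          exact Finset.mem_image.2 ⟨i, Finset.mem_filter.2 ⟨hi, he⟩, rfl⟩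
      rw [← e1, Finset.prod_image fun a _ b _ hab => hd hab] at h1
      have hsq : Squarefree (∏ l ∈ T', l) := by
        refine Finset.squarefree_prod_of_pairwise_isCoprime (fun p hp q hq hpq => ?_)
          fun p hp => (hpr p hp).squarefree
        show IsRelPrime p q
        rw [← Nat.coprime_iff_isRelPrime]
        exact (Nat.coprime_primes (hpr p hp) (hpr q hq)).mpr hpq
      have h2 := sq_cls hc hsq h1
      have ham : am (W (fun i => (d i).primeFactors) T) :=
        isLaw.adm_W T fun i _ => am_pf (hc i)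
      refine ⟨T, Finset.mem_powerset.2 (Finset.filter_subset _ _), ?_⟩
      rw [← (adm_of_mask ham).2, ← h2]
      exact Nat.primeFactors_prod hpr
    · rintro ⟨T, hT, rfl⟩
      rw [Finset.mem_powerset] at hT
      constructor
      · intro p hp
        have h1 := (Finset.mem_filter.1 hp).1
        obtain ⟨i, hi, h2⟩ := Finset.mem_biUnion.1 h1
        exact Finset.mem_biUnion.2 ⟨d i, Finset.mem_image_of_mem d (hT hi), h2⟩
      · obtain ⟨k, hk, h1⟩ := prod_mask d T fun i _ => hc i
        have h2 : ∀ i ∈ T, ∃ z : field S, z ^ 2 = (d i : field S) := fun i hi =>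
          gen1 S (d i) (Finset.mem_image_of_mem d (hT hi))
        choose! f hf using h2
        have hk' : (k : field S) ≠ 0 := by exact_mod_cast hk.ne'
        refine ⟨(∏ i ∈ T, f i) / k, ?_⟩
        rw [div_pow, ← Finset.prod_pow, Finset.prod_congr rfl hf, div_eq_iff (pow_ne_zero 2 hk')]
        have h3 : ((∏ i ∈ T, d i : ℕ) : field S) =
            (((∏ p ∈ W (fun i => (d i).primeFactors) T, p) * k ^ 2 : ℕ) : field S) := by rw [h1]
        push_cast at h3 ⊢
        exact h3
  rw [hHF, Finset.card_image_of_injective _ fun T T' he => hW T T' he, Finset.card_powerset,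
    Finset.card_range]

theorem alg_fld (S : Set ℕ) {x : ℂ} (hx : x ∈ fld S) : _root_.IsIntegral ℚ x := by
  have h1 : Algebra.IsAlgebraic ℚ (fld S) := by
    unfold fld
    refine IntermediateField.isAlgebraic_adjoin ?_
    rintro z ⟨d, -, hz⟩
    refine ⟨Polynomial.X ^ 2 - Polynomial.C (d : ℚ), Polynomial.monic_X_pow_sub_C _ (by norm_num),
      ?_⟩
    rw [← Polynomial.aeval_def]
    simp [hz]
  have h2 : IsAlgebraic ℚ (⟨x, hx⟩ : fld S) := h1.isAlgebraic _
  have h3 : IsAlgebraic ℚ x := by
    have := h2.algebraMap (A := ℂ)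
    exact this
  exact h3.isIntegral

/-- the points over an infinite field -/
theorem torsion_of {S : Set ℕ} {M : IntermediateField ℚ ℂ} (hM : M = fld S)
    (h : RankFormulaBelow M) : TorsionOver M := by
  intro P
  rcases P with _ | ⟨x, y, hxy⟩
  · exact ⟨1, one_pos, one_nsmul _⟩
  · set F : IntermediateField ℚ ℂ := IntermediateField.adjoin ℚ {(x : ℂ), (y : ℂ)} with hF
    have hFM : F ≤ M := by
      rw [hF, IntermediateField.adjoin_le_iff]
      rintro z (rfl | rfl)
      · exact x.2
      · exact y.2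
    have hfin : FiniteDimensional ℚ F := by
      refine IntermediateField.finiteDimensional_adjoin (S := {(x : ℂ), (y : ℂ)}) ?_
      rintro z (rfl | rfl)
      · exact alg_fld S (hM ▸ x.2)
      · exact alg_fld S (hM ▸ y.2)
    have hN : NumberField F := { to_charZero := inferInstance, to_finiteDimensional := hfin }
    obtain ⟨-, -, -, -, -, hf⟩ := h F hFM
    have hx : (x : ℂ) ∈ F := IntermediateField.subset_adjoin ℚ _ (Or.inl rfl)
    have hy : (y : ℂ) ∈ F := IntermediateField.subset_adjoin ℚ _ (Or.inr rfl)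
    set ι : F →ₐ[ℚ] M := IntermediateField.inclusion hFM with hι
    have hns : (X49 F).toAffine.Nonsingular ⟨(x : ℂ), hx⟩ ⟨(y : ℂ), hy⟩ := by
      exact ((⟨1, -1, 0, -2, -1⟩ : WeierstrassCurve ℚ).toAffine.baseChange_nonsingular (f := ι)
        ι.injective ⟨(x : ℂ), hx⟩ ⟨(y : ℂ), hy⟩).1 hxy
    have hn := card_nsmul_eq_zero' (x := (Affine.Point.some _ _ hns : (X49 F).toAffine.Point))
    refine ⟨Nat.card (X49 F).toAffine.Point, Nat.card_pos, ?_⟩
    have h2 := congrArg (Affine.Point.map (W' := (⟨1, -1, 0, -2, -1⟩ : WeierstrassCurve ℚ).toAffine)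
      ι) hn
    rw [map_nsmul, map_zero] at h2
    exact h2

theorem main {A : Set ℕ} {δ : ℝ} (hδ : 0 < δ) (hA : UpperDensityGe A δ) :
    ∃ d : ℕ → ℕ, StrictMono d ∧ (∀ i, d i ∈ A ∧ InClass (d i)) ∧
      (∀ n, Module.finrank ℚ (level d n) = 2 ^ n) ∧
      RankFormulaBelow (pairField d) ∧ TorsionOver (pairField d) ∧
      ((∀ D ∈ A, InClass D → RankZeroShaTwo D) →
        RankFormulaBelow (rootField d) ∧ TorsionOver (rootField d)) := by
  obtain ⟨d, h1, h2, h3, h4⟩ := isLaw.universal2 ⟨δ, hδ, (ud_iff A δ).1 hA⟩ Set.univ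
  have hc : ∀ i, InClass (d i) := fun i => adm_ex.1 (h2 i).2
  have h5 : ∀ T : Finset ℕ, 2 ≤ T.card → Gd n4 (W (fun i => (d i).primeFactors) T) :=
    fun T hT => (h4 T hT).2 trivial
  have h6 : Gd n4 (W (fun i => (d i).primeFactors) ∅) := by
    rw [W_empty]
    intro x _ p hp
    exact absurd hp (Finset.notMem_empty p)
  have hp : RankFormulaBelow (pairField d) := by
    refine below_pair hc ?_
    intro T hT
    rcases Nat.lt_or_ge T.card 2 with h7 | h7
    · have h8 : T.card = 0 := by
        rcases hT with ⟨k, hk⟩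
        omega
      rw [Finset.card_eq_zero.1 h8]
      exact h6
    · exact h5 T h7
  have hr : (∀ D ∈ A, InClass D → RankZeroShaTwo D) → RankFormulaBelow (rootField d) := by
    intro hg
    refine below_root hc ?_
    intro T
    rcases Nat.lt_or_ge T.card 2 with h7 | h7
    · rcases Nat.lt_or_ge T.card 1 with h8 | h8
      · rw [Finset.card_eq_zero.1 (by omega : T.card = 0)]
        exact h6
      · obtain ⟨i, rfl⟩ := Finset.card_eq_one.1 (by omega : T.card = 1)
        have h9 : W (fun i => (d i).primeFactors) {i} = (d i).primeFactors := by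
          have := W_insert (u := fun i => (d i).primeFactors) (Finset.notMem_empty i)
          have e : (d i).primeFactors ∆ ∅ = (d i).primeFactors := symmDiff_bot _
          rw [W_empty, e, insert_empty_eq] at this
          exact this
        rw [h9]
        exact (two_gd (hc i)).1 ((two_sel (hc i)).2 (hg (d i) (h2 i).1 (hc i)))
    · exact h5 T h7
  exact ⟨d, h1, fun i => ⟨(h2 i).1, hc i⟩, degree hc h1.injective h3, hp,
    torsion_of (pairField_eq d) hp, fun hg => ⟨hr hg, torsion_of (rootField_eq d) (hr hg)⟩⟩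

end proof

theorem result (A : Set ℕ) (δ : ℝ) (hδ : 0 < δ) (hA : UpperDensityGe A δ) :
    ∃ d : ℕ → ℕ, StrictMono d ∧ (∀ i, d i ∈ A ∧ InClass (d i)) ∧
      (∀ n, Module.finrank ℚ (level d n) = 2 ^ n) ∧
      RankFormulaBelow (pairField d) ∧ TorsionOver (pairField d) ∧
      ((∀ D ∈ A, InClass D → RankZeroShaTwo D) →
        RankFormulaBelow (rootField d) ∧ TorsionOver (rootField d)) :=
  main hδ hA

end Pool.Agent.Results.MP_cd906c_nt.TowersFromDenseSets
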